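import Pool.Agent.Run7.h400.GK.StmC

/-!
# Project GK (MP_a90b0f_nt): piece GMF
-/

set_option autoImplicit false

namespace Run7.h669.GK

open Polynomial Finset Run7.h400.GK

section

variable {E : Type} [Field E]

/-- `kap` as a linear map. -/
noncomputable def kapL (n : ℕ) (h : PowerSeries E) : E[X] →ₗ[E] E :=
  Polynomial.lsum fun j => if n ≤ j + 1 then
    (LinearMap.id : E →ₗ[E] E).smulRight (PowerSeries.coeff (j + 1 - n) h) else 0

lemma kapL_eq (n : ℕ) (h : PowerSeries E) (f : E[X]) : kapL n h f = kap n h f := by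
  unfold kapL kap
  rw [Polynomial.lsum_apply]
  refine Finset.sum_congr rfl fun j _ => ?_
  simp only
  split_ifs <;> simp

lemma kap_X (n : ℕ) (h : PowerSeries E) (j : ℕ) :
    kap n h (X ^ j) = if n ≤ j + 1 then PowerSeries.coeff (j + 1 - n) h else 0 := by
  unfold kap
  rw [Polynomial.sum_def, ← Polynomial.monomial_one_right_eq_X_pow,
    Polynomial.support_monomial j one_ne_zero]
  simp

lemma kap_low (n : ℕ) (hn : 1 ≤ n) (h : PowerSeries E) (h0 : PowerSeries.constantCoeff h = 1)
    (f : E[X]) (hf : f.natDegree < n) : kap n h f = f.coeff (n - 1) := by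
  unfold kap
  rw [Polynomial.sum_over_range' f (by intro j; simp) n hf]
  rw [Finset.sum_eq_single (n - 1)]
  · rw [if_pos (by omega)]
    have : n - 1 + 1 - n = 0 := by omega
    rw [this, PowerSeries.coeff_zero_eq_constantCoeff, h0, mul_one]
  · intro j hj hj2
    have := Finset.mem_range.mp hj
    rw [if_neg (by omega)]
  · intro hc
    exact absurd (Finset.mem_range.mpr (by omega)) hc

/-- The column `n - 1` of the adjugate, as a polynomial. -/
noncomputable def FR (q n : ℕ) (P : E[X]) (R : ℕ) : E[X] :=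
  ∑ i : Fin R, C (∑ l : Fin R, if (l : ℕ) + 1 = n then (1 - MatP q P R).adjugate i l else 0) *
    X ^ (i : ℕ)

lemma FR_fst (q n : ℕ) (P : E[X]) : FR q n P (2 * n) = fst q n P := by
  unfold FR fst
  refine Finset.sum_congr rfl fun i _ => ?_
  congr 2
  simp only [Matrix.mulVec, dotProduct]
  refine Finset.sum_congr rfl fun l _ => ?_
  split_ifs <;> simp

lemma coeff_FR (q n : ℕ) (P : E[X]) (R : ℕ) (i : Fin R) : (FR q n P R).coeff i =
    ∑ l : Fin R, if (l : ℕ) + 1 = n then (1 - MatP q P R).adjugate i l else 0 := by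
  unfold FR
  simp only [finsetSum_coeff, coeff_C_mul, coeff_X_pow]
  rw [Finset.sum_eq_single i]
  · simp
  · intro j _ hj
    have : (i : ℕ) ≠ (j : ℕ) := fun hc => hj (Fin.ext hc.symm)
    rw [if_neg this, mul_zero]
  · intro hc
    exact absurd (Finset.mem_univ i) hc

lemma coeff_FR_ge (q n : ℕ) (P : E[X]) (R : ℕ) {i : ℕ} (hi : R ≤ i) : (FR q n P R).coeff i = 0 := by
  unfold FR
  simp only [finsetSum_coeff, coeff_C_mul, coeff_X_pow]
  refine Finset.sum_eq_zero fun j _ => ?_
  have : i ≠ (j : ℕ) := by omega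
  rw [if_neg this, mul_zero]

end

theorem t_GMF : S_ADJ → S_KAP → S_RNK → S_GMF := by
  intro hADJ hKAP hRNK Fq E _ _ _ _ q n s h hq hn hs hF
  set P : E[X] := (s.map fun t => X - C t).prod with hP
  have hq2 : 2 ≤ q := by
    rw [hq]
    exact Fintype.one_lt_card
  have hPm : P.Monic := monic_multiset_prod_of_monic s _ fun t _ => monic_X_sub_C t
  have hPd : P.natDegree = n * (q - 1) := by
    rw [hP, natDegree_multiset_prod_X_sub_C_eq_card, hs]
  have hR := fun (R : ℕ) (hR : n ≤ R) => hRNK E q n R P h hq2 hn hR hPm hPd hF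
  have hK := hKAP E q n P h hq2 hn hPd hF
  set G : ℕ → ℕ → E := fun m J => ∑ j ∈ range J, ∑ c : Fin j → Fq,
    (s.map fun t => aeval t (mp c)).prod * algebraMap Fq E (ps m (mp c)) with hG
  -- the value of `G`
  have hGF : ∀ m R J : ℕ, n ≤ R → n + m ≤ R → R + 1 ≤ J →
      G m J = - kap n h (X ^ m * FR q n P R) := by
    intro m R J h1 h2 h3
    have h4 := hADJ Fq E q n m R J s hq hn h2 h3 hs
    rw [← hP] at h4
    change G m J = _ at h4
    rw [h4]
    congr 1
    rw [Matrix.trace]
    simp only [Matrix.diag_apply, Matrix.mul_apply]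
    have h5 : ∀ i : Fin R, ∑ j : Fin R, (1 - MatP q P R).adjugate i j * MatM q P R m j i
        = (∑ l : Fin R, if (l : ℕ) + 1 = n then (1 - MatP q P R).adjugate i l else 0) *
          kap n h (X ^ ((i : ℕ) + m)) := by
      intro i
      have h6 : ∀ j : Fin R, (1 - MatP q P R).adjugate i j * MatM q P R m j i
          = (∑ l : Fin R, if (l : ℕ) + 1 = n then (1 - MatP q P R).adjugate i l else 0) *
            ((Lam q (X ^ ((i : ℕ) + m) * P)).coeff j * kap n h (X ^ (j : ℕ))) := by
        intro j
        rw [(hR R h1).1 i j, coeff_Lam (by omega)]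
        simp only [MatM, Matrix.of_apply]
        ring
      rw [Finset.sum_congr rfl fun j _ => h6 j, ← Finset.mul_sum]
      congr 1
      rw [← hK (X ^ ((i : ℕ) + m))]
      have hdeg : (Lam q (X ^ ((i : ℕ) + m) * P)).natDegree < R := by
        rw [Nat.lt_iff_le_pred (by omega)]
        rw [natDegree_le_iff_coeff_eq_zero]
        intro N hN
        rw [coeff_Lam (by omega)]
        apply coeff_eq_zero_of_natDegree_lt
        have h7 : (X ^ ((i : ℕ) + m) * P).natDegree ≤ (i : ℕ) + m + n * (q - 1) := by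
          refine natDegree_mul_le.trans ?_
          rw [hPd, natDegree_X_pow]
        refine lt_of_le_of_lt h7 ?_
        obtain ⟨k, rfl⟩ : ∃ k, q = k + 2 := ⟨q - 2, by omega⟩
        have h8 : R ≤ N := by omega
        have h9 : (i : ℕ) < R := i.2
        have h10 : n * k ≤ N * k := Nat.mul_le_mul_right k (h1.trans h8)
        have h11 : n * (k + 2 - 1) = n * k + n := by
          have : k + 2 - 1 = k + 1 := by omega
          rw [this]
          ring
        rw [h11]
        have h12 : (k + 2) * N + (k + 2) - 1 = N * k + 2 * N + k + 1 := by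
          have : (k + 2) * N = N * k + 2 * N := by ring
          omega
        rw [h12]
        omega
      have h7 : kap n h (Lam q (X ^ ((i : ℕ) + m) * P)) =
          ∑ j ∈ range R, (Lam q (X ^ ((i : ℕ) + m) * P)).coeff j * kap n h (X ^ j) := by
        conv_lhs => rw [← kapL_eq, as_sum_range' _ R hdeg, map_sum]
        refine Finset.sum_congr rfl fun j _ => ?_
        rw [← C_mul_X_pow_eq_monomial, ← smul_eq_C_mul, map_smul, kapL_eq, smul_eq_mul]
      rw [h7, Finset.sum_range]
    rw [Finset.sum_congr rfl fun i _ => h5 i]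
    rw [← kapL_eq]
    unfold FR
    rw [Finset.mul_sum, map_sum]
    refine Finset.sum_congr rfl fun i _ => ?_
    have h8 : (X : E[X]) ^ m * (C (∑ l : Fin R, if (l : ℕ) + 1 = n then
        (1 - MatP q P R).adjugate i l else 0) * X ^ (i : ℕ))
        = (∑ l : Fin R, if (l : ℕ) + 1 = n then (1 - MatP q P R).adjugate i l else 0) •
          (X : E[X]) ^ ((i : ℕ) + m) := by
      rw [smul_eq_C_mul]
      ring
    rw [h8, map_smul, kapL_eq, smul_eq_mul]
  -- high coefficients vanish
  have hcoef : ∀ R, n ≤ R → ∀ i, n ≤ i → (FR q n P R).coeff i = 0 := by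
    intro R h1 i hi
    by_cases hiR : i < R
    · have h2 := coeff_FR q n P R ⟨i, hiR⟩
      simp only at h2
      rw [h2]
      refine Finset.sum_eq_zero fun l _ => ?_
      split_ifs with hl
      · exact (hR R h1).2.1 ⟨i, hiR⟩ hi l hl
      · rfl
    · exact coeff_FR_ge q n P R (by omega)
  -- independence of `R`
  have hind : ∀ R, 2 * n ≤ R → FR q n P R = FR q n P (2 * n) := by
    intro R h1
    by_contra hne
    set δ := FR q n P R - FR q n P (2 * n) with hδ
    have hδ0 : δ ≠ 0 := sub_ne_zero.mpr hne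
    have hδc : ∀ i, n ≤ i → δ.coeff i = 0 := by
      intro i hi
      rw [hδ, coeff_sub, hcoef R (by omega) i hi, hcoef (2 * n) (by omega) i hi, sub_zero]
    have hδd : δ.natDegree < n := by
      by_contra hc
      exact hδ0 (leadingCoeff_eq_zero.mp (hδc _ (not_lt.mp hc)))
    set m := n - 1 - δ.natDegree with hm
    have e1 := hGF m R (R + 1) (by omega) (by omega) le_rfl
    have e2 := hGF m (2 * n) (R + 1) (by omega) (by omega) (by omega)
    have e3 : kap n h (X ^ m * δ) = 0 := by
      have e4 : kap n h (X ^ m * FR q n P R) = kap n h (X ^ m * FR q n P (2 * n)) := by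
        have := e1.symm.trans e2
        exact neg_injective this
      rw [hδ, mul_sub, ← kapL_eq, map_sub, kapL_eq, kapL_eq, e4, sub_self]
    have e5 : (X ^ m * δ).natDegree < n := by
      rw [natDegree_X_pow_mul _ hδ0]
      omega
    rw [kap_low n hn h hF.1 _ e5] at e3
    have e6 : n - 1 = δ.natDegree + m := by omega
    rw [e6, mul_comm, coeff_mul_X_pow] at e3
    exact hδ0 (leadingCoeff_eq_zero.mp e3)
  refine ⟨?_, ?_, ?_⟩
  · intro m J hJ
    have e1 := hGF m (2 * n + m) J (by omega) (by omega) (by omega)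
    rw [hind _ (by omega), FR_fst] at e1
    exact e1
  · intro i hi
    rw [← FR_fst]
    exact hcoef (2 * n) (by omega) i hi
  · intro h0
    refine (hR (2 * n) (by omega)).2.2 ?_
    ext i j
    rw [(hR (2 * n) (by omega)).1 i j, ← coeff_FR, FR_fst, h0]
    simp

end Run7.h669.GK

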